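import Pool.Agent.H.MP_30394b_an.B

set_option autoImplicit false
open Set MvPolynomial
open scoped ContDiff

namespace Pool.Agent.Results.MP_30394b_an.Algebrable

open Pool.Agent.H.MP_30394b_an

variable {𝕜 : Type*} [RCLike 𝕜]

/-- `g` is infinitely differentiable on `[0,1]` (one-sided at the endpoints) and its Taylor series
has radius of convergence zero at every point of `[0,1]`. -/
def PS (g : C(Icc (0 : ℝ) 1, 𝕜)) : Prop :=
  ContDiffOn ℝ ∞ (IccExtend zero_le_one g) (Icc 0 1) ∧ ∀ x ∈ Icc (0 : ℝ) 1,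
    (FormalMultilinearSeries.ofScalars 𝕜 fun n =>
      iteratedDerivWithin n (IccExtend zero_le_one g) (Icc 0 1) x / (n.factorial : 𝕜)).radius = 0

/-- the generators -/
noncomputable def s (j : ℕ) : C(Icc (0 : ℝ) 1, 𝕜) :=
  ⟨fun x => f 𝕜 j x, ((f_tame (x := 0) j).1 0).continuous.comp continuous_subtype_val⟩

theorem ev (P : MvPolynomial ℕ 𝕜) (x : Icc (0 : ℝ) 1) :
    aeval (s (𝕜 := 𝕜)) P x = aeval (f 𝕜) P x := by
  induction P using MvPolynomial.induction_on with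
  | C a => simp
  | add p q hp hq => simp [hp, hq]
  | mul_X p j hp => simp [hp, s]

theorem der (P : MvPolynomial ℕ 𝕜) {x : ℝ} (hx : x ∈ Icc (0 : ℝ) 1) (n : ℕ) :
    iteratedDerivWithin n (IccExtend zero_le_one (aeval (s (𝕜 := 𝕜)) P)) (Icc 0 1) x =
      iteratedDeriv n (aeval (f 𝕜) P) x := by
  rw [← iteratedDerivWithin_eq_iteratedDeriv (uniqueDiffOn_Icc one_pos) (cd (smooth P) n) hx]
  exact iteratedDerivWithin_congr (fun y hy => by rw [IccExtend_of_mem _ _ hy, ev]) hx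

theorem ps (P : MvPolynomial ℕ 𝕜) (h : P.totalDegree ≠ 0) : PS (aeval (s (𝕜 := 𝕜)) P) := by
  refine ⟨(smooth P).contDiffOn.congr fun y hy => by rw [IccExtend_of_mem _ _ hy, ev],
    fun x hx => ?_⟩
  by_contra h0
  obtain ⟨r, hr0, hr⟩ := ENNReal.lt_iff_exists_nnreal_btwn.1 (pos_iff_ne_zero.2 h0)
  obtain ⟨K, -, hK⟩ := FormalMultilinearSeries.norm_mul_pow_le_of_lt_radius _ hr
  refine main (x := x) _ P rfl h r (by exact_mod_cast hr0) K fun k => ?_
  have := hK k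
  rwa [FormalMultilinearSeries.ofScalars_norm, norm_div, RCLike.norm_natCast, der P hx] at this

theorem ind : AlgebraicIndependent 𝕜 (s (𝕜 := 𝕜)) := by
  rw [algebraicIndependent_iff]
  intro P hP
  by_cases h : P.totalDegree = 0
  · rw [totalDegree_eq_zero_iff_eq_C] at h
    rw [h] at hP ⊢
    have := DFunLike.congr_fun hP 0
    simp only [aeval_C] at this
    rw [show coeff 0 P = 0 by simpa using this, C_0]
  · refine absurd (fun k => ?_) (main (x := 0) _ P rfl h 1 one_pos 0)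
    rw [← der P (by simp), hP, iteratedDerivWithin_congr (g := fun _ => 0)
      (fun y hy => by simp [IccExtend_of_mem _ _ hy]) (by simp)]
    simp

theorem rep (e : ℕ → 𝕜) {S : Set C(Icc (0 : ℝ) 1, 𝕜)} (hS : ∀ g ∈ S, ∃ j, s j = g ∧ e j = 0)
    {g : C(Icc (0 : ℝ) 1, 𝕜)} (hg : g ∈ NonUnitalAlgebra.adjoin 𝕜 S) :
    ∃ P : MvPolynomial ℕ 𝕜, aeval s P = g ∧ eval e P = 0 := by
  induction hg using NonUnitalAlgebra.adjoin_induction with
  | mem g hg =>
    obtain ⟨j, h1, h2⟩ := hS g hg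
    exact ⟨X j, by simpa using h1, by simpa using h2⟩
  | add a b _ _ ha hb =>
    obtain ⟨P, h1, h2⟩ := ha
    obtain ⟨Q, h3, h4⟩ := hb
    exact ⟨P + Q, by simp [h1, h3], by simp [h2, h4]⟩
  | zero => exact ⟨0, by simp, by simp⟩
  | mul a b _ _ ha hb =>
    obtain ⟨P, h1, h2⟩ := ha
    obtain ⟨Q, h3, h4⟩ := hb
    exact ⟨P * Q, by simp [h1, h3], by simp [h2]⟩
  | smul c a _ ha =>
    obtain ⟨P, h1, h2⟩ := ha
    exact ⟨c • P, by simp [h1], by simp [h2]⟩

theorem result (𝕜 : Type*) [RCLike 𝕜] : ∃ S : Set C(Icc (0 : ℝ) 1, 𝕜), S.Infinite ∧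
    AlgebraicIndependent 𝕜 ((↑) : S → C(Icc (0 : ℝ) 1, 𝕜)) ∧
    (∀ S' ⊂ S, NonUnitalAlgebra.adjoin 𝕜 S' ≠ NonUnitalAlgebra.adjoin 𝕜 S) ∧
    ∀ g ∈ NonUnitalAlgebra.adjoin 𝕜 S, g ≠ 0 → PS g := by
  classical
  refine ⟨range s, infinite_range_of_injective ind.injective, ind.to_subtype_range,
    fun S' hS e => ?_, fun g hg h0 => ?_⟩
  · obtain ⟨_, ⟨j, rfl⟩, hj⟩ := exists_of_ssubset hS
    obtain ⟨P, h1, h2⟩ := rep (Pi.single j 1) (S := S') (fun g hg => by
      obtain ⟨i, rfl⟩ := hS.1 hg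
      exact ⟨i, rfl, Pi.single_eq_of_ne (by rintro rfl; exact hj hg) _⟩)
      (g := s j) (by rw [e]; exact NonUnitalAlgebra.subset_adjoin 𝕜 (mem_range_self j))
    have e2 : P = X j := algebraicIndependent_iff_injective_aeval.1 (ind (𝕜 := 𝕜))
      (by rw [h1, aeval_X])
    rw [e2] at h2
    simp at h2
  · obtain ⟨P, rfl, h2⟩ := rep 0 (S := range s) (fun g hg => hg.imp fun j hj => ⟨hj, rfl⟩) hg
    refine ps P fun h => h0 ?_
    rw [totalDegree_eq_zero_iff_eq_C] at h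
    rw [h] at h2 ⊢
    rw [eval_C] at h2
    rw [h2, C_0, map_zero]

end Pool.Agent.Results.MP_30394b_an.Algebrable
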